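import Pool.Agent.K3h20.CR.StmD
import Pool.Agent.TH433.MC7

/-!
# Project CR, brick DYN
-/

set_option autoImplicit false

open Set Filter Topology
open scoped OnePoint

namespace Pool.Agent.K3h23.CR

open Pool.Agent.H462R2.AP Pool.Agent.H762R2.Rt Pool.Agent.Helper114.Herman
  Pool.Agent.Helper114.Konig Pool.Agent.TH433.MC Pool.Agent.K3h20.CR

/-- the constants for a fixed `w` -/
theorem consts (D : ℕ) (M w : ℝ) (hM : 1 ≤ M) (hw : 0 < w) : ∀ᶠ n : ℕ in atTop,
    ((D : ℝ) + 1) * D * (M * M) * Real.exp (-(n * w)) ≤ (M * M)⁻¹ / 2 ∧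
    2 * (((D : ℝ) + 1) * D * (M * M) * Real.exp (-(n * w))) <
      (M * M)⁻¹ * (Real.exp (-w) * (1 - Real.exp (-w))) ∧
    2 * (((D : ℝ) + 1) * (M * M)) * (((D : ℝ) + 1) * D * (M * M)) * (4 / (M * M)⁻¹ ^ 2) *
      (n * Real.exp (-((n - 1 : ℝ) * w))) ≤ 1 / 2 := by
  have hM0 : 0 < (M * M)⁻¹ := by positivity
  have hr0 : 0 < Real.exp (-w) := Real.exp_pos _
  have hr1 : Real.exp (-w) < 1 := by rw [Real.exp_lt_one_iff]; linarith
  have e1 : ∀ n : ℕ, Real.exp (-(n * w)) = Real.exp (-w) ^ n := by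
    intro n
    rw [← Real.exp_nat_mul]
    congr 1
    ring
  have e2 : ∀ n : ℕ, n * Real.exp (-((n - 1 : ℝ) * w)) = Real.exp w * (n * Real.exp (-w) ^ n) := by
    intro n
    rw [← e1, mul_left_comm, ← Real.exp_add]
    congr 2
    ring
  have t1 : Tendsto (fun n : ℕ => ((D : ℝ) + 1) * D * (M * M) * Real.exp (-(n * w))) atTop
      (𝓝 0) := by
    simp_rw [e1]
    have := (tendsto_pow_atTop_nhds_zero_of_lt_one hr0.le hr1).const_mul
      (((D : ℝ) + 1) * D * (M * M))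
    rwa [mul_zero] at this
  have t2 : Tendsto (fun n : ℕ => 2 * (((D : ℝ) + 1) * D * (M * M) * Real.exp (-(n * w)))) atTop
      (𝓝 0) := by
    have := t1.const_mul 2
    rwa [mul_zero] at this
  have t3 : Tendsto (fun n : ℕ => 2 * (((D : ℝ) + 1) * (M * M)) * (((D : ℝ) + 1) * D * (M * M)) *
      (4 / (M * M)⁻¹ ^ 2) * (n * Real.exp (-((n - 1 : ℝ) * w)))) atTop (𝓝 0) := by
    simp_rw [e2]
    have := ((tendsto_self_mul_const_pow_of_lt_one hr0.le hr1).const_mul (Real.exp w)).const_mul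
      (2 * (((D : ℝ) + 1) * (M * M)) * (((D : ℝ) + 1) * D * (M * M)) * (4 / (M * M)⁻¹ ^ 2))
    rwa [mul_zero, mul_zero] at this
  have hpos : 0 < (M * M)⁻¹ * (Real.exp (-w) * (1 - Real.exp (-w))) := by
    have : 0 < 1 - Real.exp (-w) := by linarith
    positivity
  filter_upwards [t1.eventually_le_const (show (0 : ℝ) < (M * M)⁻¹ / 2 by positivity),
    t2.eventually_lt_const hpos, t3.eventually_le_const (show (0 : ℝ) < 1 / 2 by norm_num)]
    with n h1 h2 h3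
  exact ⟨h1, h2, h3⟩

/-- The trap, with the proof of `hyp_of_far`. -/
theorem trap_far {P Q : Polynomial ℂ} {D : ℕ} (hD : D = max P.natDegree Q.natDegree)
    (hD1 : 1 ≤ D) {M : ℝ} (hM : 1 ≤ M)
    (hPM : ∀ k, ‖P.coeff k‖ ≤ M) (hQM : ∀ k, ‖Q.coeff k‖ ≤ M)
    (h0 : M⁻¹ ≤ ‖P.coeff 0‖ ∨ M⁻¹ ≤ ‖Q.coeff 0‖)
    (hinf : M⁻¹ ≤ ‖P.coeff D‖ ∨ M⁻¹ ≤ ‖Q.coeff D‖)
    {s : ℂ} (hs1 : M⁻¹ ≤ ‖s‖) (hs2 : ‖s‖ ≤ M) {n : ℕ} (hn : 2 ≤ n) {w : ℝ} (hw : 0 < w)
    (c1 : ((D : ℝ) + 1) * D * (M * M) * Real.exp (-(n * w)) ≤ (M * M)⁻¹ / 2)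
    (c2 : 2 * (((D : ℝ) + 1) * D * (M * M) * Real.exp (-(n * w))) <
      (M * M)⁻¹ * (Real.exp (-w) * (1 - Real.exp (-w))))
    (c3 : 2 * (((D : ℝ) + 1) * (M * M)) * (((D : ℝ) + 1) * D * (M * M)) * (4 / (M * M)⁻¹ ^ 2) *
      (n * Real.exp (-((n - 1 : ℝ) * w))) ≤ 1 / 2)
    (f0 : Far w s (P.coeff 0) (Q.coeff 0)) (finf : Far w s (P.coeff D) (Q.coeff D))
    {f : OnePoint ℂ → OnePoint ℂ}
    (hf : IsRat f (Polynomial.C s * Polynomial.expand ℂ n P) (Polynomial.expand ℂ n Q)) :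
    ∀ i x, ‖x‖ ≤ Real.exp (-w) → Sinks f (ch i x) := by
  have hM0 : 0 < M := by linarith
  have hs0 : s ≠ 0 := by
    intro h
    rw [h, norm_zero] at hs1
    have := inv_pos.2 hM0
    linarith
  have hn0 : 0 < n := by omega
  have hPd : P.natDegree ≤ D := hD ▸ le_max_left _ _
  have hQd : Q.natDegree ≤ D := hD ▸ le_max_right _ _
  have hdeg : D * n = max (Polynomial.C s * Polynomial.expand ℂ n P).natDegree
      (Polynomial.expand ℂ n Q).natDegree := by
    rw [Polynomial.natDegree_C_mul hs0, Polynomial.natDegree_expand, Polynomial.natDegree_expand,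
      hD, max_mul_of_nonneg _ _ (Nat.zero_le n)]
  have hDn : 0 < D * n := Nat.mul_pos hD1 hn0
  -- the two charts
  let ψ : Bool → ℂ → OnePoint ℂ := fun i x => if i then sinv (x : OnePoint ℂ) else (x : OnePoint ℂ)
  let a : Bool → ℕ → ℂ := fun i k => if i then s * P.coeff (D - k) else s * P.coeff k
  let b : Bool → ℕ → ℂ := fun i k => if i then Q.coeff (D - k) else Q.coeff k
  have hQexp : ∀ u v : ℂ, (v ≠ 0 ∨ u = 1 ∧ v = 0) →
      hom (Polynomial.expand ℂ n Q) (D * n) u v = hom Q D (u ^ n) (v ^ n) := by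
    intro u v huv
    have := hom_expand hn0 hQd 1 u v huv
    rwa [Polynomial.C_1, one_mul, one_mul] at this
  have hfψ : ∀ i x, f (ψ i x) = pr (pol (a i) D (x ^ n)) (pol (b i) D (x ^ n)) := by
    intro i x
    cases i
    · have e1 : ψ false x = pr x 1 := by simp [ψ, pr_one]
      rw [e1, rat_formula hf hdeg hDn (Or.inr one_ne_zero),
        hom_expand hn0 hPd s x 1 (Or.inl one_ne_zero), hQexp x 1 (Or.inl one_ne_zero), one_pow,
        hom_one_right, hom_one_right, pol_smul]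
      simp [a, b]
    · have e1 : ψ true x = pr 1 x := by
        simp only [ψ, if_true]
        rw [← pr_one x, sinv_pr (Or.inr one_ne_zero)]
      have hx : x ≠ 0 ∨ (1 : ℂ) = 1 ∧ x = 0 := by
        by_cases h : x = 0
        · exact Or.inr ⟨rfl, h⟩
        · exact Or.inl h
      rw [e1, rat_formula hf hdeg hDn (Or.inl one_ne_zero),
        hom_expand hn0 hPd s 1 x hx, hQexp 1 x hx, one_pow,
        hom_one_left, hom_one_left, pol_smul]
      simp [a, b]
  have haM : ∀ i k, ‖a i k‖ ≤ M * M := by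
    intro i k
    cases i
    · simp only [a, Bool.false_eq_true, if_false, norm_mul]
      exact mul_le_mul hs2 (hPM _) (norm_nonneg _) hM0.le
    · simp only [a, if_true, norm_mul]
      exact mul_le_mul hs2 (hPM _) (norm_nonneg _) hM0.le
  have hbM : ∀ i k, ‖b i k‖ ≤ M * M := by
    have hMM : M ≤ M * M := by nlinarith
    intro i k
    cases i
    · simp only [b, Bool.false_eq_true, if_false]
      exact (hQM _).trans hMM
    · simp only [b, if_true]
      exact (hQM _).trans hMM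
  have hexp2 : Real.exp (-2 * w) ≤ 1 := by rw [Real.exp_le_one_iff]; linarith
  have hfar : ∀ i, ‖a i 0‖ ≤ Real.exp (-2 * w) * ‖b i 0‖ ∨
      ‖b i 0‖ ≤ Real.exp (-2 * w) * ‖a i 0‖ := by
    intro i
    cases i
    · simp only [a, b, Bool.false_eq_true, if_false]
      exact f0
    · simp only [a, b, if_true, Nat.sub_zero]
      exact finf
  have hMinv : (M * M)⁻¹ ≤ M⁻¹ := by
    apply inv_anti₀ hM0; nlinarith
  have hlow : ∀ p : ℂ, M⁻¹ ≤ ‖p‖ → (M * M)⁻¹ ≤ ‖s * p‖ := by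
    intro p hp
    rw [norm_mul, mul_inv]
    exact mul_le_mul hs1 hp (inv_nonneg.2 hM0.le) (norm_nonneg _)
  have hbig : ∀ i, (M * M)⁻¹ ≤ ‖a i 0‖ ∨ (M * M)⁻¹ ≤ ‖b i 0‖ := by
    intro i
    cases i
    · simp only [a, b, Bool.false_eq_true, if_false]
      rcases h0 with h | h
      · exact Or.inl (hlow _ h)
      · exact Or.inr (hMinv.trans h)
    · simp only [a, b, if_true, Nat.sub_zero]
      rcases hinf with h | h
      · exact Or.inl (hlow _ h)
      · exact Or.inr (hMinv.trans h)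
  have hμ : 0 < (M * M)⁻¹ := by positivity
  set r := Real.exp (-w) with hr
  have hr0 : 0 < r := Real.exp_pos _
  let σ : Bool → Bool := fun i => decide ¬(‖a i 0‖ ≤ Real.exp (-2 * w) * ‖b i 0‖)
  let h : Bool → ℂ → ℂ := fun i x =>
    if ‖a i 0‖ ≤ Real.exp (-2 * w) * ‖b i 0‖ then pol (a i) D (x ^ n) / pol (b i) D (x ^ n)
    else pol (b i) D (x ^ n) / pol (a i) D (x ^ n)
  have key : ∀ i, (∀ x, ‖x‖ ≤ r → f (ψ i x) = ψ (σ i) (h i x)) ∧
      (∀ x, ‖x‖ ≤ r → ‖h i x‖ < r) ∧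
      (∀ x y, ‖x‖ ≤ r → ‖y‖ ≤ r → ‖h i x - h i y‖ ≤ (1 / 2) * ‖x - y‖) := by
    intro i
    by_cases hi : ‖a i 0‖ ≤ Real.exp (-2 * w) * ‖b i 0‖
    · have hb0 : (M * M)⁻¹ ≤ ‖b i 0‖ := by
        rcases hbig i with h1 | h1
        · have : ‖a i 0‖ ≤ ‖b i 0‖ := hi.trans (by nlinarith [norm_nonneg (b i 0)])
          linarith
        · exact h1
      obtain ⟨k1, k2, k3⟩ := chart_map hμ (haM i) (hbM i) hb0 (by omega) hw hi c1 c2 c3
      have hσ : σ i = false := by simp only [σ, hi, not_true_eq_false, decide_false]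
      have hh : ∀ x, h i x = pol (a i) D (x ^ n) / pol (b i) D (x ^ n) := by
        intro x; simp only [h, if_pos hi]
      refine ⟨?_, ?_, ?_⟩
      · intro x hx
        rw [hfψ, hσ, hh, pr_ne (k1 x hx)]
        simp [ψ]
      · intro x hx; rw [hh]; exact k2 x hx
      · intro x y hx hy; rw [hh, hh]; exact k3 x y hx hy
    · have hi' : ‖b i 0‖ ≤ Real.exp (-2 * w) * ‖a i 0‖ := (hfar i).resolve_left hi
      have ha0 : (M * M)⁻¹ ≤ ‖a i 0‖ := by
        rcases hbig i with h1 | h1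
        · exact h1
        · have : ‖b i 0‖ ≤ ‖a i 0‖ := hi'.trans (by nlinarith [norm_nonneg (a i 0)])
          linarith
      obtain ⟨k1, k2, k3⟩ := chart_map hμ (hbM i) (haM i) ha0 (by omega) hw hi' c1 c2 c3
      have hσ : σ i = true := by simp only [σ, hi, not_false_eq_true, decide_true]
      have hh : ∀ x, h i x = pol (b i) D (x ^ n) / pol (a i) D (x ^ n) := by
        intro x; simp only [h, if_neg hi]
      refine ⟨?_, ?_, ?_⟩
      · intro x hx
        rw [hfψ, hσ, hh]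
        simp only [ψ, if_true]
        rw [← pr_ne (k1 x hx), sinv_pr (Or.inr (k1 x hx))]
      · intro x hx; rw [hh]; exact k2 x hx
      · intro x y hx hy; rw [hh, hh]; exact k3 x y hx hy
  have hψc : ∀ i, Continuous (ψ i) := by
    intro i
    cases i
    · simpa [ψ] using OnePoint.continuous_coe (X := ℂ)
    · have := continuous_sinv.comp (OnePoint.continuous_coe (X := ℂ))
      simpa [ψ, Function.comp_def] using this
  have hψo : ∀ i, IsOpenMap (ψ i) := by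
    intro i
    cases i
    · simpa [ψ] using (OnePoint.isOpenEmbedding_coe (X := ℂ)).isOpenMap
    · have := sinvHomeo.isOpenMap.comp (OnePoint.isOpenEmbedding_coe (X := ℂ)).isOpenMap
      simpa [ψ, Function.comp_def, sinvHomeo] using this
  intro i x hx
  have hgo : Sinks f (ψ i x) := two_charts hr0 hψc hψo (fun i x hx => (key i).1 x hx)
    (fun i x hx => (key i).2.1 x hx) (fun i x y hx hy => (key i).2.2 x y hx hy)
    (((key i).2.1 x hx).le) ((key i).1 x hx)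
  exact hgo

/-- two numbers with no coincidence in an interval -/
theorem sep {p q a b : ℝ} (hp : 0 ≤ p) (hq : 0 ≤ q) (hab : a ≤ b)
    (h : ∀ t : ℝ, a ≤ t → t ≤ b → t * p ≠ q) : b * p < q ∨ q < a * p := by
  by_contra hcon
  push Not at hcon
  obtain ⟨h1, h2⟩ := hcon
  rcases hp.lt_or_eq with hp0 | hp0
  · exact h (q / p) (by rwa [le_div_iff₀ hp0]) (by rwa [div_le_iff₀ hp0]) (by field_simp)
  · rw [← hp0, mul_zero] at h1
    exact h a le_rfl hab (by rw [← hp0, mul_zero]; exact le_antisymm hq h1)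

/-- behaviour near the centre of a chart -/
theorem near_centre (A B : Polynomial ℂ) {a b : ℝ} (ha : 0 < a) (hab : a ≤ b)
    (h : b * ‖A.eval 0‖ < ‖B.eval 0‖ ∨ ‖B.eval 0‖ < a * ‖A.eval 0‖) :
    ∃ w : ℝ, 0 < w ∧ ∃ ρ : ℝ, 0 < ρ ∧ ρ < 1 ∧ ∀ w' : ℝ, w' ≤ w → ∀ z : ℂ, ‖z‖ ≤ ρ →
      ∀ s : ℂ, a ≤ ‖s‖ → ‖s‖ ≤ b →
      Good (2 * w') (s * A.eval z) (B.eval z) ∧ (s * A.eval z ≠ 0 ∨ B.eval z ≠ 0) := by
  have hexp : Tendsto (fun w : ℝ => Real.exp (-(2 * w))) (𝓝[>] 0) (𝓝 1) := by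
    have h1 : Continuous fun w : ℝ => Real.exp (-(2 * w)) := by fun_prop
    have h2 := (h1.tendsto 0).mono_left (nhdsWithin_le_nhds (s := Ioi 0))
    simpa using h2
  have hmono : ∀ w w' : ℝ, w' ≤ w → Real.exp (-(2 * w)) ≤ Real.exp (-(2 * w')) := by
    intro w w' hw
    rw [Real.exp_le_exp]
    linarith
  have hcA : Continuous fun z : ℂ => ‖A.eval z‖ := by fun_prop
  have hcB : Continuous fun z : ℂ => ‖B.eval z‖ := by fun_prop
  rcases h with h | h
  · obtain ⟨w, hw1, hw0⟩ : ∃ w : ℝ, b * ‖A.eval 0‖ < Real.exp (-(2 * w)) * ‖B.eval 0‖ ∧ 0 < w := by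
      have h1 : Tendsto (fun w : ℝ => Real.exp (-(2 * w)) * ‖B.eval 0‖) (𝓝[>] 0)
          (𝓝 (1 * ‖B.eval 0‖)) := hexp.mul_const _
      rw [one_mul] at h1
      exact ((h1.eventually_const_lt h).and self_mem_nhdsWithin).exists
    have h2 : ∀ᶠ z in 𝓝 (0 : ℂ), b * ‖A.eval z‖ < Real.exp (-(2 * w)) * ‖B.eval z‖ :=
      ((hcA.const_mul b).tendsto 0).eventually_lt ((hcB.const_mul _).tendsto 0) hw1
    obtain ⟨ρ, hρ0, hρ⟩ := Metric.eventually_nhds_iff.1 h2
    refine ⟨w, hw0, min (ρ / 2) (1 / 2), by positivity, by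
      exact lt_of_le_of_lt (min_le_right _ _) (by norm_num), ?_⟩
    intro w' hw' z hz s hs1 hs2
    have h3 : b * ‖A.eval z‖ < Real.exp (-(2 * w)) * ‖B.eval z‖ := by
      apply hρ
      rw [dist_zero_right]
      have := hz.trans (min_le_left _ _)
      linarith
    have hB : B.eval z ≠ 0 := by
      intro h0
      rw [h0, norm_zero, mul_zero] at h3
      have : 0 ≤ b * ‖A.eval z‖ := mul_nonneg (ha.le.trans hab) (norm_nonneg _)
      linarith
    refine ⟨Or.inl ?_, Or.inr hB⟩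
    rw [norm_mul]
    calc ‖s‖ * ‖A.eval z‖ ≤ b * ‖A.eval z‖ := mul_le_mul_of_nonneg_right hs2 (norm_nonneg _)
      _ ≤ Real.exp (-(2 * w)) * ‖B.eval z‖ := h3.le
      _ ≤ Real.exp (-(2 * w')) * ‖B.eval z‖ :=
          mul_le_mul_of_nonneg_right (hmono w w' hw') (norm_nonneg _)
  · obtain ⟨w, hw1, hw0⟩ : ∃ w : ℝ,
        ‖B.eval 0‖ < Real.exp (-(2 * w)) * (a * ‖A.eval 0‖) ∧ 0 < w := by
      have h1 : Tendsto (fun w : ℝ => Real.exp (-(2 * w)) * (a * ‖A.eval 0‖)) (𝓝[>] 0)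
          (𝓝 (1 * (a * ‖A.eval 0‖))) := hexp.mul_const _
      rw [one_mul] at h1
      exact ((h1.eventually_const_lt h).and self_mem_nhdsWithin).exists
    have h2 : ∀ᶠ z in 𝓝 (0 : ℂ), ‖B.eval z‖ < Real.exp (-(2 * w)) * (a * ‖A.eval z‖) :=
      (hcB.tendsto 0).eventually_lt (((hcA.const_mul a).const_mul _).tendsto 0) hw1
    obtain ⟨ρ, hρ0, hρ⟩ := Metric.eventually_nhds_iff.1 h2
    refine ⟨w, hw0, min (ρ / 2) (1 / 2), by positivity, by
      exact lt_of_le_of_lt (min_le_right _ _) (by norm_num), ?_⟩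
    intro w' hw' z hz s hs1 hs2
    have h3 : ‖B.eval z‖ < Real.exp (-(2 * w)) * (a * ‖A.eval z‖) := by
      apply hρ
      rw [dist_zero_right]
      have := hz.trans (min_le_left _ _)
      linarith
    have hs0 : s ≠ 0 := by
      rintro rfl
      rw [norm_zero] at hs1
      linarith
    have hA : A.eval z ≠ 0 := by
      intro h0
      rw [h0, norm_zero, mul_zero, mul_zero] at h3
      exact absurd h3 (not_lt.2 (norm_nonneg _))
    refine ⟨Or.inr ?_, Or.inl (mul_ne_zero hs0 hA)⟩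
    rw [norm_mul]
    calc ‖B.eval z‖ ≤ Real.exp (-(2 * w)) * (a * ‖A.eval z‖) := h3.le
      _ ≤ Real.exp (-(2 * w')) * (‖s‖ * ‖A.eval z‖) :=
          mul_le_mul (hmono w w' hw') (mul_le_mul_of_nonneg_right hs1 (norm_nonneg _))
            (by positivity) (Real.exp_pos _).le

/-- a bound for all the data -/
theorem exists_M {P Q : Polynomial ℂ} {D : ℕ} (hD : D = max P.natDegree Q.natDegree) {a b : ℝ}
    (ha : 0 < a) (hab : a ≤ b) (h0 : P.coeff 0 ≠ 0 ∨ Q.coeff 0 ≠ 0)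
    (hinf : P.coeff D ≠ 0 ∨ Q.coeff D ≠ 0) :
    ∃ M : ℝ, 1 ≤ M ∧ (∀ k, ‖P.coeff k‖ ≤ M) ∧ (∀ k, ‖Q.coeff k‖ ≤ M) ∧
      (M⁻¹ ≤ ‖P.coeff 0‖ ∨ M⁻¹ ≤ ‖Q.coeff 0‖) ∧ (M⁻¹ ≤ ‖P.coeff D‖ ∨ M⁻¹ ≤ ‖Q.coeff D‖) ∧
      M⁻¹ ≤ a ∧ b ≤ M := by
  have hPd : P.natDegree ≤ D := hD ▸ le_max_left _ _
  have hQd : Q.natDegree ≤ D := hD ▸ le_max_right _ _
  set S : ℝ := ∑ k ∈ Finset.range (D + 1), (‖P.coeff k‖ + ‖Q.coeff k‖) with hS
  have hS0 : 0 ≤ S := Finset.sum_nonneg fun k _ => by positivity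
  set M : ℝ := 1 + S + b + a⁻¹ + ‖P.coeff 0‖⁻¹ + ‖Q.coeff 0‖⁻¹ + ‖P.coeff D‖⁻¹ +
    ‖Q.coeff D‖⁻¹ with hM
  have hb0 : 0 < b := lt_of_lt_of_le ha hab
  have n1 : 0 ≤ a⁻¹ := by positivity
  have n2 : 0 ≤ ‖P.coeff 0‖⁻¹ := by positivity
  have n3 : 0 ≤ ‖Q.coeff 0‖⁻¹ := by positivity
  have n4 : 0 ≤ ‖P.coeff D‖⁻¹ := by positivity
  have n5 : 0 ≤ ‖Q.coeff D‖⁻¹ := by positivity
  have hM0 : 0 < M := by rw [hM]; linarith
  have hcoef : ∀ k, ‖P.coeff k‖ ≤ S ∧ ‖Q.coeff k‖ ≤ S := by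
    intro k
    by_cases hk : k ≤ D
    · have h1 : ‖P.coeff k‖ + ‖Q.coeff k‖ ≤ S :=
        Finset.single_le_sum (f := fun k => ‖P.coeff k‖ + ‖Q.coeff k‖)
          (fun k _ => by positivity) (Finset.mem_range.2 (by omega))
      have h2 := norm_nonneg (P.coeff k)
      have h3 := norm_nonneg (Q.coeff k)
      exact ⟨by linarith, by linarith⟩
    · rw [Polynomial.coeff_eq_zero_of_natDegree_lt (by omega),
        Polynomial.coeff_eq_zero_of_natDegree_lt (by omega), norm_zero]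
      exact ⟨hS0, hS0⟩
  have hinv : ∀ x : ℝ, 0 < x → x⁻¹ ≤ M → M⁻¹ ≤ x := by
    intro x hx h
    rw [inv_le_comm₀ hM0 hx]
    exact h
  refine ⟨M, by rw [hM]; linarith, fun k => (hcoef k).1.trans (by rw [hM]; linarith),
    fun k => (hcoef k).2.trans (by rw [hM]; linarith), ?_, ?_, hinv a ha (by rw [hM]; linarith),
    by rw [hM]; linarith⟩
  · rcases h0 with h | h
    · exact Or.inl (hinv _ (norm_pos_iff.2 h) (by rw [hM]; linarith))
    · exact Or.inr (hinv _ (norm_pos_iff.2 h) (by rw [hM]; linarith))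
  · rcases hinf with h | h
    · exact Or.inl (hinv _ (norm_pos_iff.2 h) (by rw [hM]; linarith))
    · exact Or.inr (hinv _ (norm_pos_iff.2 h) (by rw [hM]; linarith))

theorem orb_eq {P Q : Polynomial ℂ} {y s : ℂ} (hP : P.eval y ≠ 0) (hQ : Q.eval y ≠ 0) (n : ℕ)
    (j : ℕ) : orb (rr P Q y) n ((s * (P.eval y / Q.eval y)) ^ n) j =
      (fun u : ℂ => (s * (P.eval u / Q.eval u)) ^ n)^[j] ((s * (P.eval y / Q.eval y)) ^ n) := by
  have hv : P.eval y / Q.eval y ≠ 0 := div_ne_zero hP hQ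
  induction j with
  | zero => rfl
  | succ j ih =>
    rw [Function.iterate_succ_apply', ← ih]
    change _ * rr P Q y _ ^ n = _
    rw [← mul_pow, rr]
    congr 1
    field_simp

theorem t_dyn : St_dyn := by
  intro P Q hc D hD hD1 a b ha hab hsep
  have hQ0 : Q ≠ 0 := by
    rintro rfl
    have h1 : IsUnit P := isCoprime_zero_right.1 hc
    have h2 := Polynomial.natDegree_eq_zero_of_isUnit h1
    rw [h2, Polynomial.natDegree_zero, max_self] at hD
    omega
  have h0ne : P.coeff 0 ≠ 0 ∨ Q.coeff 0 ≠ 0 := by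
    by_contra h
    push Not at h
    exact (hsep a le_rfl hab).1 (by rw [h.1, h.2, norm_zero, mul_zero])
  have hDne : P.coeff D ≠ 0 ∨ Q.coeff D ≠ 0 := by
    by_contra h
    push Not at h
    exact (hsep a le_rfl hab).2 (by rw [h.1, h.2, norm_zero, mul_zero])
  have hcen : ∀ i : Bool, ∃ w : ℝ, 0 < w ∧ ∃ ρ : ℝ, 0 < ρ ∧ ρ < 1 ∧ ∀ w' : ℝ, w' ≤ w →
      ∀ z : ℂ, ‖z‖ ≤ ρ → ∀ s : ℂ, a ≤ ‖s‖ → ‖s‖ ≤ b →
      Good (2 * w') (s * (cp D P i).eval z) ((cp D Q i).eval z) ∧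
        (s * (cp D P i).eval z ≠ 0 ∨ (cp D Q i).eval z ≠ 0) := by
    intro i
    refine near_centre _ _ ha hab ?_
    cases i
    · rw [cp_false, cp_false, ← Polynomial.coeff_zero_eq_eval_zero,
        ← Polynomial.coeff_zero_eq_eval_zero]
      exact sep (norm_nonneg _) (norm_nonneg _) hab fun t h1 h2 => (hsep t h1 h2).1
    · rw [eval_cp_true_zero, eval_cp_true_zero]
      exact sep (norm_nonneg _) (norm_nonneg _) hab fun t h1 h2 => (hsep t h1 h2).2
  choose wi hwi ρi hρi hρi1 hgood using hcen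
  set w : ℝ := min (wi false) (wi true) with hw
  have hw0 : 0 < w := lt_min (hwi _) (hwi _)
  have hwle : ∀ i, w ≤ wi i := by
    intro i
    cases i
    · exact min_le_left _ _
    · exact min_le_right _ _
  set ρ₀ : ℝ := min (ρi false) (ρi true) with hρ₀
  have hρle : ∀ i, ρ₀ ≤ ρi i := by
    intro i
    cases i
    · exact min_le_left _ _
    · exact min_le_right _ _
  have hρ0 : 0 < ρ₀ := lt_min (hρi _) (hρi _)
  have hρ1 : ρ₀ < 1 := lt_of_le_of_lt (min_le_left _ _) (hρi1 _)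
  obtain ⟨M, hM1, hPM, hQM, hM0, hMD, hMa, hMb⟩ := exists_M hD ha hab h0ne hDne
  obtain ⟨n₀, hn₀⟩ := eventually_atTop.1 (consts D M w hM1 hw0)
  refine ⟨ρ₀, hρ0, hρ1, max n₀ 2, ?_⟩
  intro n hn s hs1 hs2 hdec
  have hn2 : 2 ≤ n := (le_max_right _ _).trans hn
  have hn0 : 0 < n := by omega
  obtain ⟨c1, c2, c3⟩ := hn₀ n ((le_max_left _ _).trans hn)
  have hs0 : s ≠ 0 := by
    rintro rfl
    rw [norm_zero] at hs1
    linarith
  have hcop := coprime_family hc hs0 n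
  have hQe : Polynomial.expand ℂ n Q ≠ 0 := (Polynomial.expand_ne_zero hn0).2 hQ0
  obtain ⟨f, hf, -⟩ := exists_isRat hcop hQe
  have hFar : ∀ p q : ℂ, Good (2 * w) (s * p) q → Far w s p q := by
    intro p q h
    unfold Pool.Agent.H462R2.AP.Good at h
    unfold Far
    rwa [show -2 * w = -(2 * w) by ring]
  have hg0 : ∀ i, Good (2 * w) (s * (cp D P i).eval 0) ((cp D Q i).eval 0) := fun i =>
    (hgood i w (hwle i) 0 (by rw [norm_zero]; exact (hρi i).le) s hs1 hs2).1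
  have hF0 : Far w s (P.coeff 0) (Q.coeff 0) := by
    have h := hg0 false
    rw [cp_false, cp_false, ← Polynomial.coeff_zero_eq_eval_zero,
      ← Polynomial.coeff_zero_eq_eval_zero] at h
    exact hFar _ _ h
  have hFD : Far w s (P.coeff D) (Q.coeff D) := by
    have h := hg0 true
    rw [eval_cp_true_zero, eval_cp_true_zero] at h
    exact hFar _ _ h
  have hS : ∀ i x, ‖x‖ ≤ Real.exp (-w) → Sinks f (ch i x) :=
    trap_far hD hD1 hM1 hPM hQM hM0 hMD (hMa.trans hs1) (hs2.trans hMb) hn2 hw0 c1 c2 c3 hF0 hFD hf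
  have hS' : ∀ i x, ‖x‖ ≤ Real.exp (-(2 * w / 2)) → Sinks f (ch i x) := by
    intro i x hx
    apply hS
    rwa [show 2 * w / 2 = w by ring] at hx
  have hexpand : Polynomial.C s * Polynomial.expand ℂ n P =
      Polynomial.expand ℂ n (Polynomial.C s * P) := by
    rw [map_mul, Polynomial.expand_C]
  have hf' : IsRat f (Polynomial.expand ℂ n (Polynomial.C s * P)) (Polynomial.expand ℂ n Q) := by
    rw [← hexpand]
    exact hf
  have hDs : D = max (Polynomial.C s * P).natDegree Q.natDegree := by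
    rw [Polynomial.natDegree_C_mul hs0, hD]
  have hcs : IsCoprime (Polynomial.C s * P) Q :=
    (isCoprime_mul_unit_left_left (Polynomial.isUnit_C.2 (isUnit_iff_ne_zero.2 hs0)) _ _).2 hc
  have hmap := map_ch hDs hD1 hn0 hf'
  have hevs : ∀ i y, (cp D (Polynomial.C s * P) i).eval y = s * (cp D P i).eval y := by
    intro i y
    rw [cp_smul, Polynomial.eval_mul, Polynomial.eval_C]
  -- near the centres of the charts
  have hcentre : ∀ i x, ‖x ^ n‖ ≤ ρ₀ → Sinks f (ch i x) := by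
    intro i x hx
    apply sinks_of_image hf.cont
    rw [hmap, hevs]
    obtain ⟨h1, h2⟩ := hgood i w (hwle i) (x ^ n) (hx.trans (hρle i)) s hs1 hs2
    exact good_sinks (by positivity) hS' h2 h1
  have hinf : Sinks f (∞ : OnePoint ℂ) := by
    have e1 : ch true 0 = ∞ := by simp [ch, sinv_zero]
    rw [← e1]
    exact hS true 0 (by rw [norm_zero]; exact (Real.exp_pos _).le)
  have hzero : Sinks f ((0 : ℂ) : OnePoint ℂ) := by
    have := hS false 0 (by rw [norm_zero]; exact (Real.exp_pos _).le)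
    rwa [ch_false] at this
  -- the orbits
  set G : ℂ → ℂ := fun u => (s * (P.eval u / Q.eval u)) ^ n with hG
  have horb : ∀ j : ℕ, ∀ z : ℂ, ¬ (ρ₀ ≤ ‖G^[j] (z ^ n)‖ ∧ ‖G^[j] (z ^ n)‖ ≤ ρ₀⁻¹) →
      Sinks f (z : OnePoint ℂ) := by
    intro j
    induction j with
    | zero =>
      intro z hz
      rw [Function.iterate_zero, id] at hz
      by_cases h1 : ‖z ^ n‖ ≤ ρ₀
      · have := hcentre false z h1
        rwa [ch_false] at this
      · have h2 : ρ₀⁻¹ < ‖z ^ n‖ := by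
          by_contra h3
          exact hz ⟨(not_le.1 h1).le, not_lt.1 h3⟩
        have hzn : 0 < ‖z ^ n‖ := lt_trans (inv_pos.2 hρ0) h2
        have hz0 : z ≠ 0 := by
          rintro rfl
          rw [zero_pow hn0.ne', norm_zero] at hzn
          exact lt_irrefl _ hzn
        have h3 := hcentre true z⁻¹ (by
          rw [inv_pow, norm_inv, inv_le_comm₀ hzn hρ0]
          exact h2.le)
        rw [ch_true] at h3
        simp only at h3
        rwa [sinv_coe (inv_ne_zero hz0), inv_inv] at h3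
    | succ j ih =>
      intro z hz
      rw [Function.iterate_succ_apply] at hz
      apply sinks_of_image hf.cont
      have h4 := hmap false z
      rw [cp_false, cp_false, ch_false] at h4
      simp only at h4
      rw [h4]
      by_cases hq : Q.eval (z ^ n) = 0
      · rw [hq, pr_zero]
        exact hinf
      · rw [pr_ne hq, Polynomial.eval_mul, Polynomial.eval_C]
        refine ih _ ?_
        rw [mul_div_assoc]
        exact hz
  have hwro : ∀ y, (wro (Polynomial.C s * P) Q).eval y = s * (wro P Q).eval y := by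
    intro y
    unfold wro
    rw [Polynomial.derivative_C_mul]
    simp only [Polynomial.eval_sub, Polynomial.eval_mul, Polynomial.eval_C]
    ring
  rw [hexpand]
  refine hyp_of_values hcs hDs hD1 hn0 hf' (fun i => hS i 0 (by
    rw [norm_zero]; exact (Real.exp_pos _).le)) ?_
  intro y hy
  rw [hwro] at hy
  have hy' : (wro P Q).eval y = 0 := (mul_eq_zero.1 hy).resolve_left hs0
  rw [Polynomial.eval_mul, Polynomial.eval_C]
  by_cases hq : Q.eval y = 0
  · rw [hq, pr_zero]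
    exact hinf
  rw [pr_ne hq]
  by_cases hp : P.eval y = 0
  · rw [hp, mul_zero, zero_div]
    exact hzero
  have h1 := hdec y hy' hp hq
  rw [Und, mem_ofPred_eq] at h1
  push Not at h1
  obtain ⟨j, hj⟩ := h1
  refine horb j _ ?_
  rw [mul_div_assoc]
  rw [orb_eq hp hq] at hj
  rintro ⟨h2, h3⟩
  exact absurd h3 (not_le.2 (hj h2))

end Pool.Agent.K3h23.CR
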